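import Pool.Agent.W8.ST.Stm

/-! ST-SteE: equality of the Steklov multiplicities. -/

set_option autoImplicit false

open scoped ContDiff
open Pool.Agent.W8.ST

namespace Pool.Agent.W691.ST

theorem i1_mem {x : V 4} (hx : x ∈ strip 3) : i1 x ∈ strip 3 := hx
theorem i2_mem {x : V 4} (hx : x ∈ strip 3) : i2 x ∈ strip 3 := hx
theorem jj_mem {x : V 4} (hx : x ∈ strip 3) : jj x ∈ strip 3 := by
  have h : |x 0| ≤ 1 := hx
  show |-x 0| ≤ 1
  rwa [abs_neg]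

noncomputable def i1S (x : strip 3) : strip 3 := ⟨i1 x, i1_mem x.2⟩
noncomputable def i2S (x : strip 3) : strip 3 := ⟨i2 x, i2_mem x.2⟩
noncomputable def jjS (x : strip 3) : strip 3 := ⟨jj x, jj_mem x.2⟩

theorem i1_i1 (x : V 4) : i1 (i1 x) = x + Pi.single (Fin.succ (1 : Fin 3)) (2 * Real.pi) := by
  funext j
  fin_cases j
  · show x 0 = x 0 + (Pi.single (2 : Fin 4) (2 * Real.pi) : V 4) 0
    rw [Pi.single_eq_of_ne (by decide), add_zero]
  · show - - x 1 = x 1 + (Pi.single (2 : Fin 4) (2 * Real.pi) : V 4) 1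
    rw [Pi.single_eq_of_ne (by decide), add_zero, neg_neg]
  · show x 2 + Real.pi + Real.pi = x 2 + (Pi.single (2 : Fin 4) (2 * Real.pi) : V 4) 2
    rw [Pi.single_eq_same]
    ring
  · show - - x 3 = x 3 + (Pi.single (2 : Fin 4) (2 * Real.pi) : V 4) 3
    rw [Pi.single_eq_of_ne (by decide), add_zero, neg_neg]

theorem i2_i2 (x : V 4) : i2 (i2 x) = x + Pi.single (Fin.succ (0 : Fin 3)) (2 * Real.pi) := by
  funext j
  fin_cases j
  · show x 0 = x 0 + (Pi.single (1 : Fin 4) (2 * Real.pi) : V 4) 0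
    rw [Pi.single_eq_of_ne (by decide), add_zero]
  · show x 1 + Real.pi + Real.pi = x 1 + (Pi.single (1 : Fin 4) (2 * Real.pi) : V 4) 1
    rw [Pi.single_eq_same]
    ring
  · show - - x 2 = x 2 + (Pi.single (1 : Fin 4) (2 * Real.pi) : V 4) 2
    rw [Pi.single_eq_of_ne (by decide), add_zero, neg_neg]
  · show - - x 3 = x 3 + (Pi.single (1 : Fin 4) (2 * Real.pi) : V 4) 3
    rw [Pi.single_eq_of_ne (by decide), add_zero, neg_neg]

theorem jj_jj (x : V 4) : jj (jj x) = x := by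
  funext j
  fin_cases j
  · show - - x 0 = x 0
    rw [neg_neg]
  · rfl
  · rfl
  · rfl

theorem jjS_jjS (x : strip 3) : jjS (jjS x) = x := Subtype.ext (jj_jj x)

theorem i1_jj (x : V 4) : i1 (jj x) = jj (i2 x) := by
  funext j
  fin_cases j <;> rfl

theorem i2_jj (x : V 4) : i2 (jj x) = jj (i1 x) := by
  funext j
  fin_cases j <;> rfl

theorem pd_add {i : Fin 4} {u u' : V 4 → ℝ} (hu : ContDiff ℝ ∞ u) (hu' : ContDiff ℝ ∞ u')
    (x : V 4) : pd i (u + u') x = pd i u x + pd i u' x := by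
  unfold pd
  rw [fderiv_add (hu.differentiable (by simp) x) (hu'.differentiable (by simp) x)]
  rfl

theorem pd_smul {i : Fin 4} {u : V 4 → ℝ} (hu : ContDiff ℝ ∞ u) (c : ℝ)
    (x : V 4) : pd i (c • u) x = c * pd i u x := by
  unfold pd
  rw [fderiv_const_smul (hu.differentiable (by simp) x)]
  rfl

/-- rank of the invariant functions -/
theorem rank_F (hE : SolE) (sig : ℝ) (f : V 4 → V 4) (fS : strip 3 → strip 3)
    (hf : ∀ x : strip 3, (fS x : V 4) = f x) (I : E 0 sig →ₗ[ℝ] E 0 sig)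
    (hI : ∀ (v : E 0 sig) u, Sol 0 sig u → (∀ x : strip 3, (v : strip 3 → ℝ) x = u x) →
      ∀ x : strip 3, (I v : strip 3 → ℝ) x = u (f x)) :
    Module.rank ℝ (F 0 sig f) = Module.rank ℝ (LinearMap.eqLocus I LinearMap.id) := by
  have e : F 0 sig f = Submodule.map (E 0 sig).subtype (LinearMap.eqLocus I LinearMap.id) := by
    apply le_antisymm
    · unfold F
      rw [Submodule.span_le]
      rintro v ⟨u, ⟨hu, hinv⟩, hv⟩
      have hvE : v ∈ E 0 sig := (hE.1 0 sig v).2 ⟨u, hu, hv⟩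
      refine ⟨⟨v, hvE⟩, ?_, rfl⟩
      show (⟨v, hvE⟩ : E 0 sig) ∈ LinearMap.eqLocus I LinearMap.id
      rw [LinearMap.mem_eqLocus]
      apply Subtype.ext
      funext x
      rw [hI ⟨v, hvE⟩ u hu hv x, hinv x x.2]
      exact (hv x).symm
    · rintro _ ⟨v, hv, rfl⟩
      have hv' : I v = v := LinearMap.mem_eqLocus.1 hv
      obtain ⟨u, hu, huv⟩ := (hE.1 0 sig v.1).1 v.2
      unfold F
      apply Submodule.subset_span
      refine ⟨u, ⟨hu, fun x hx => ?_⟩, huv⟩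
      have h1 := hI v u hu huv ⟨x, hx⟩
      rw [hv', huv] at h1
      exact h1.symm
  rw [e]
  exact (LinearEquiv.rank_eq (Submodule.equivMapOfInjective (E 0 sig).subtype
    (Submodule.injective_subtype _) (LinearMap.eqLocus I LinearMap.id))).symm

set_option maxHeartbeats 1000000 in
theorem SteE_proof : SteE := by
  intro hAbs hCommD hOpD hOpI hOpJ hPerD hSolE hLOp sig
  have hOpD' := hOpD hCommD
  have hrep : ∀ v : E 0 sig, ∃ u, Sol 0 sig u ∧ ∀ x : strip 3, (v : strip 3 → ℝ) x = u x :=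
    fun v => (hSolE.1 0 sig v.1).1 v.2
  have hL : ∀ i : Fin 3, ∃ L : E 0 sig →ₗ[ℝ] E 0 sig, ∀ (v : E 0 sig) u, Sol 0 sig u →
      (∀ x : strip 3, (v : strip 3 → ℝ) x = u x) → ∀ x : strip 3,
        (L v : strip 3 → ℝ) x = pd i.succ u x := fun i =>
    hLOp hSolE 0 sig (fun u => pd i.succ u) (fun u hu => hOpD'.1 0 sig u hu i)
      (fun u u' hu hu' h => hOpD'.2 u u' hu.1 hu'.1 h i)
      (fun u u' hu hu' x _ => pd_add hu.1 hu'.1 x) (fun c u hu x _ => pd_smul hu.1 c x)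
  choose D hD using hL
  obtain ⟨I1, hI1⟩ := hLOp hSolE 0 sig (fun u => u ∘ i1) (fun u hu => (hOpI.1 0 sig u hu).1)
    (fun u u' _ _ h x hx => h (i1 x) (i1_mem hx)) (fun _ _ _ _ _ _ => rfl) (fun _ _ _ _ _ => rfl)
  obtain ⟨I2, hI2⟩ := hLOp hSolE 0 sig (fun u => u ∘ i2) (fun u hu => (hOpI.1 0 sig u hu).2)
    (fun u u' _ _ h x hx => h (i2 x) (i2_mem hx)) (fun _ _ _ _ _ _ => rfl) (fun _ _ _ _ _ => rfl)
  have hSD : ∀ (i : Fin 3) u, Sol 0 sig u → Sol 0 sig (pd i.succ u) :=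
    fun i u hu => hOpD'.1 0 sig u hu i
  have hS1 : ∀ u, Sol 0 sig u → Sol 0 sig (u ∘ i1) := fun u hu => (hOpI.1 0 sig u hu).1
  have hS2 : ∀ u, Sol 0 sig u → Sol 0 sig (u ∘ i2) := fun u hu => (hOpI.1 0 sig u hu).2
  -- relations
  have c1 : ∀ i j v, D i (D j v) = D j (D i v) := by
    intro i j v
    obtain ⟨u, hu, huv⟩ := hrep v
    apply Subtype.ext
    funext x
    rw [hD i (D j v) _ (hSD j u hu) (hD j v u hu huv) x,
      hD j (D i v) _ (hSD i u hu) (hD i v u hu huv) x, (hCommD u hu.1).2]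
  have c2 : ∀ i v, D i (D i v) = 0 → D i v = 0 := by
    intro i v h
    obtain ⟨u, hu, huv⟩ := hrep v
    have h1 : ∀ x ∈ strip 3, pd i.succ (pd i.succ u) x = 0 := by
      intro x hx
      rw [← hD i (D i v) _ (hSD i u hu) (hD i v u hu huv) ⟨x, hx⟩, h]
      rfl
    apply Subtype.ext
    funext x
    rw [hD i v u hu huv x]
    exact hPerD hCommD 0 sig u hu i h1 x x.2
  have c3 : ∀ v, I1 (I1 v) = v := by
    intro v
    obtain ⟨u, hu, huv⟩ := hrep v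
    apply Subtype.ext
    funext x
    rw [hI1 (I1 v) _ (hS1 u hu) (hI1 v u hu huv) x, huv x]
    show u (i1 (i1 x)) = u x
    rw [i1_i1]
    exact hu.2.1 x x.2 1
  have c4 : ∀ v, I2 (I2 v) = v := by
    intro v
    obtain ⟨u, hu, huv⟩ := hrep v
    apply Subtype.ext
    funext x
    rw [hI2 (I2 v) _ (hS2 u hu) (hI2 v u hu huv) x, huv x]
    show u (i2 (i2 x)) = u x
    rw [i2_i2]
    exact hu.2.1 x x.2 0
  have d10 : ∀ v, I1 (D 0 v) = -D 0 (I1 v) := by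
    intro v
    obtain ⟨u, hu, huv⟩ := hrep v
    apply Subtype.ext
    funext x
    show (I1 (D 0 v) : strip 3 → ℝ) x = -((D 0 (I1 v) : strip 3 → ℝ) x)
    rw [hI1 (D 0 v) _ (hSD 0 u hu) (hD 0 v u hu huv) x,
      hD 0 (I1 v) _ (hS1 u hu) (hI1 v u hu huv) x]
    show pd 1 u (i1 x) = -(pd 1 (u ∘ i1) x)
    rw [(hOpI.2 u hu.1).1]
    exact (neg_neg _).symm
  have d11 : ∀ v, I1 (D 1 v) = D 1 (I1 v) := by
    intro v
    obtain ⟨u, hu, huv⟩ := hrep v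
    apply Subtype.ext
    funext x
    rw [hI1 (D 1 v) _ (hSD 1 u hu) (hD 1 v u hu huv) x,
      hD 1 (I1 v) _ (hS1 u hu) (hI1 v u hu huv) x]
    show pd 2 u (i1 x) = (pd 2 (u ∘ i1) x)
    rw [(hOpI.2 u hu.1).2.1]
    rfl
  have d12 : ∀ v, I1 (D 2 v) = -D 2 (I1 v) := by
    intro v
    obtain ⟨u, hu, huv⟩ := hrep v
    apply Subtype.ext
    funext x
    show (I1 (D 2 v) : strip 3 → ℝ) x = -((D 2 (I1 v) : strip 3 → ℝ) x)
    rw [hI1 (D 2 v) _ (hSD 2 u hu) (hD 2 v u hu huv) x,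
      hD 2 (I1 v) _ (hS1 u hu) (hI1 v u hu huv) x]
    show pd 3 u (i1 x) = -(pd 3 (u ∘ i1) x)
    rw [(hOpI.2 u hu.1).2.2.1]
    exact (neg_neg _).symm
  have d20 : ∀ v, I2 (D 0 v) = D 0 (I2 v) := by
    intro v
    obtain ⟨u, hu, huv⟩ := hrep v
    apply Subtype.ext
    funext x
    rw [hI2 (D 0 v) _ (hSD 0 u hu) (hD 0 v u hu huv) x,
      hD 0 (I2 v) _ (hS2 u hu) (hI2 v u hu huv) x]
    show pd 1 u (i2 x) = (pd 1 (u ∘ i2) x)
    rw [(hOpI.2 u hu.1).2.2.2.1]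
    rfl
  have d21 : ∀ v, I2 (D 1 v) = -D 1 (I2 v) := by
    intro v
    obtain ⟨u, hu, huv⟩ := hrep v
    apply Subtype.ext
    funext x
    show (I2 (D 1 v) : strip 3 → ℝ) x = -((D 1 (I2 v) : strip 3 → ℝ) x)
    rw [hI2 (D 1 v) _ (hSD 1 u hu) (hD 1 v u hu huv) x,
      hD 1 (I2 v) _ (hS2 u hu) (hI2 v u hu huv) x]
    show pd 2 u (i2 x) = -(pd 2 (u ∘ i2) x)
    rw [(hOpI.2 u hu.1).2.2.2.2.1]
    exact (neg_neg _).symm
  have d22 : ∀ v, I2 (D 2 v) = -D 2 (I2 v) := by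
    intro v
    obtain ⟨u, hu, huv⟩ := hrep v
    apply Subtype.ext
    funext x
    show (I2 (D 2 v) : strip 3 → ℝ) x = -((D 2 (I2 v) : strip 3 → ℝ) x)
    rw [hI2 (D 2 v) _ (hSD 2 u hu) (hD 2 v u hu huv) x,
      hD 2 (I2 v) _ (hS2 u hu) (hI2 v u hu huv) x]
    show pd 3 u (i2 x) = -(pd 3 (u ∘ i2) x)
    rw [(hOpI.2 u hu.1).2.2.2.2.2]
    exact (neg_neg _).symm
  have v1 : ∀ (v : E 0 sig) (x : strip 3), (I1 v : strip 3 → ℝ) x = (v : strip 3 → ℝ) (i1S x) := by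
    intro v x
    obtain ⟨u, hu, huv⟩ := hrep v
    rw [hI1 v u hu huv x, huv]
    rfl
  have v2 : ∀ (v : E 0 sig) (x : strip 3), (I2 v : strip 3 → ℝ) x = (v : strip 3 → ℝ) (i2S x) := by
    intro v x
    obtain ⟨u, hu, huv⟩ := hrep v
    rw [hI2 v u hu huv x, huv]
    rfl
  -- the exchange
  have hSJ : ∀ (v : E 0 sig) u, Sol 0 sig u → (∀ x : strip 3, (v : strip 3 → ℝ) x = u x) →
      (D 0 v = 0 ∧ D 2 v = 0) ∨ (D 1 v = 0 ∧ D 2 v = 0) → Sol 0 sig (u ∘ jj) := by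
    intro v u hu huv h
    have hz : ∀ i, D i v = 0 → ∀ x ∈ strip 3, pd i.succ u x = 0 := by
      intro i hi x hx
      rw [← hD i v u hu huv ⟨x, hx⟩, hi]
      rfl
    refine hOpJ.1 sig u hu ?_
    rcases h with h | h
    · exact Or.inl fun x hx => ⟨hz 0 h.1 x hx, hz 2 h.2 x hx⟩
    · exact Or.inr fun x hx => ⟨hz 1 h.1 x hx, hz 2 h.2 x hx⟩
  have hJm : ∀ v : E 0 sig, (D 0 v = 0 ∧ D 2 v = 0) ∨ (D 1 v = 0 ∧ D 2 v = 0) →
      (fun x => (v : strip 3 → ℝ) (jjS x)) ∈ E 0 sig := by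
    intro v h
    obtain ⟨u, hu, huv⟩ := hrep v
    refine (hSolE.1 0 sig _).2 ⟨u ∘ jj, hSJ v u hu huv h, fun x => ?_⟩
    rw [huv]
    rfl
  have hJD : ∀ v v' : E 0 sig, (D 0 v = 0 ∧ D 2 v = 0) ∨ (D 1 v = 0 ∧ D 2 v = 0) →
      (∀ x, (v' : strip 3 → ℝ) x = (v : strip 3 → ℝ) (jjS x)) →
      (∀ x, (D 0 v' : strip 3 → ℝ) x = (D 1 v : strip 3 → ℝ) (jjS x)) ∧
      (∀ x, (D 1 v' : strip 3 → ℝ) x = (D 0 v : strip 3 → ℝ) (jjS x)) ∧
      (∀ x, (D 2 v' : strip 3 → ℝ) x = (D 2 v : strip 3 → ℝ) (jjS x)) := by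
    intro v v' h hv'
    obtain ⟨u, hu, huv⟩ := hrep v
    have hs := hSJ v u hu huv h
    have hv'' : ∀ x : strip 3, (v' : strip 3 → ℝ) x = (u ∘ jj) x := by
      intro x
      rw [hv', huv]
      rfl
    have hj := hOpJ.2 u hu.1
    refine ⟨fun x => ?_, fun x => ?_, fun x => ?_⟩
    · rw [hD 0 v' _ hs hv'' x, hD 1 v u hu huv (jjS x)]
      show pd 1 (u ∘ jj) x = pd 2 u (jj x)
      rw [hj.1]
      rfl
    · rw [hD 1 v' _ hs hv'' x, hD 0 v u hu huv (jjS x)]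
      show pd 2 (u ∘ jj) x = pd 1 u (jj x)
      rw [hj.2.1]
      rfl
    · rw [hD 2 v' _ hs hv'' x, hD 2 v u hu huv (jjS x)]
      show pd 3 (u ∘ jj) x = pd 3 u (jj x)
      rw [hj.2.2]
      rfl
  have hz : ∀ w : E 0 sig, (∀ x, (w : strip 3 → ℝ) x = 0) → w = 0 := fun w h =>
    Subtype.ext (funext h)
  have hk1 : ∀ v : (LinearMap.ker (D 0) ⊓ LinearMap.ker (D 2) : Submodule ℝ (E 0 sig)),
      D 0 (v : E 0 sig) = 0 ∧ D 2 (v : E 0 sig) = 0 := fun v =>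
    ⟨LinearMap.mem_ker.1 v.2.1, LinearMap.mem_ker.1 v.2.2⟩
  have hk2 : ∀ v : (LinearMap.ker (D 1) ⊓ LinearMap.ker (D 2) : Submodule ℝ (E 0 sig)),
      D 1 (v : E 0 sig) = 0 ∧ D 2 (v : E 0 sig) = 0 := fun v =>
    ⟨LinearMap.mem_ker.1 v.2.1, LinearMap.mem_ker.1 v.2.2⟩
  have m1 : ∀ v : (LinearMap.ker (D 0) ⊓ LinearMap.ker (D 2) : Submodule ℝ (E 0 sig)),
      (⟨fun x => ((v : E 0 sig) : strip 3 → ℝ) (jjS x), hJm v (Or.inl (hk1 v))⟩ : E 0 sig) ∈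
        (LinearMap.ker (D 1) ⊓ LinearMap.ker (D 2) : Submodule ℝ (E 0 sig)) := by
    intro v
    have h := hJD v ⟨fun x => ((v : E 0 sig) : strip 3 → ℝ) (jjS x), hJm v (Or.inl (hk1 v))⟩
      (Or.inl (hk1 v)) (fun _ => rfl)
    refine ⟨LinearMap.mem_ker.2 (hz _ fun x => ?_), LinearMap.mem_ker.2 (hz _ fun x => ?_)⟩
    · rw [h.2.1 x, (hk1 v).1]
      rfl
    · rw [h.2.2 x, (hk1 v).2]
      rfl
  have m2 : ∀ v : (LinearMap.ker (D 1) ⊓ LinearMap.ker (D 2) : Submodule ℝ (E 0 sig)),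
      (⟨fun x => ((v : E 0 sig) : strip 3 → ℝ) (jjS x), hJm v (Or.inr (hk2 v))⟩ : E 0 sig) ∈
        (LinearMap.ker (D 0) ⊓ LinearMap.ker (D 2) : Submodule ℝ (E 0 sig)) := by
    intro v
    have h := hJD v ⟨fun x => ((v : E 0 sig) : strip 3 → ℝ) (jjS x), hJm v (Or.inr (hk2 v))⟩
      (Or.inr (hk2 v)) (fun _ => rfl)
    refine ⟨LinearMap.mem_ker.2 (hz _ fun x => ?_), LinearMap.mem_ker.2 (hz _ fun x => ?_)⟩
    · rw [h.1 x, (hk2 v).1]
      rfl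
    · rw [h.2.2 x, (hk2 v).2]
      rfl
  let J : (LinearMap.ker (D 0) ⊓ LinearMap.ker (D 2) : Submodule ℝ (E 0 sig)) ≃ₗ[ℝ]
      (LinearMap.ker (D 1) ⊓ LinearMap.ker (D 2) : Submodule ℝ (E 0 sig)) :=
    { toFun := fun v => ⟨⟨fun x => ((v : E 0 sig) : strip 3 → ℝ) (jjS x), _⟩, m1 v⟩
      invFun := fun v => ⟨⟨fun x => ((v : E 0 sig) : strip 3 → ℝ) (jjS x), _⟩, m2 v⟩
      map_add' := fun _ _ => rfl
      map_smul' := fun _ _ => rfl
      left_inv := fun v => by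
        apply Subtype.ext
        apply Subtype.ext
        funext x
        show ((v : E 0 sig) : strip 3 → ℝ) (jjS (jjS x)) = ((v : E 0 sig) : strip 3 → ℝ) x
        rw [jjS_jjS]
      right_inv := fun v => by
        apply Subtype.ext
        apply Subtype.ext
        funext x
        show ((v : E 0 sig) : strip 3 → ℝ) (jjS (jjS x)) = ((v : E 0 sig) : strip 3 → ℝ) x
        rw [jjS_jjS] }
  have hJx : ∀ (v : (LinearMap.ker (D 0) ⊓ LinearMap.ker (D 2) : Submodule ℝ (E 0 sig)))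
      (x : strip 3), (((J v : E 0 sig)) : strip 3 → ℝ) x =
        ((v : E 0 sig) : strip 3 → ℝ) (jjS x) := fun _ _ => rfl
  have hmain := hAbs (E 0 sig) D I1 I2 c1 c2 c3 c4 d10 d11 d12 d20 d21 d22 J ?_ ?_ ?_
  · rw [rank_F hSolE sig i1 i1S (fun _ => rfl) I1 (fun v u hu huv x => hI1 v u hu huv x),
      rank_F hSolE sig i2 i2S (fun _ => rfl) I2 (fun v u hu huv x => hI2 v u hu huv x)]
    exact hmain
  · intro v
    have h := hJD v (J v) (Or.inl (hk1 v)) (hJx v)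
    constructor
    · intro h0
      refine hz _ fun x => ?_
      rw [h.1 x, h0]
      rfl
    · intro h0
      refine hz _ fun x => ?_
      have h1 := h.1 (jjS x)
      rw [jjS_jjS, h0] at h1
      exact h1.symm
  · intro v w hw
    apply Subtype.ext
    funext x
    rw [hJx w x, hw, v1, v2, hJx]
    congr 1
  · intro v w hw
    apply Subtype.ext
    funext x
    rw [hJx w x, hw, v2, v1, hJx]
    congr 1

end Pool.Agent.W691.ST

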